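import Pool.Agent.H83.UE.Targets

/-!
# Board uda_modules, row SW: approximation by sums of products
-/

set_option autoImplicit false

open MeasureTheory Filter Topology Set
open scoped ComplexConjugate

namespace Pool.Agent.H39.UDA

open Pool.Agent.H83.UE

/-- finite sums of products of functions of class `C²` -/
def SP (k : ℕ) (f : (Fin k → ℂ) → ℂ) : Prop :=
  ∃ (ι : Type) (_ : Fintype ι) (c : ι → ℂ) (u : ι → Fin k → ℂ → ℂ),
    (∀ a l, ContDiff ℝ 2 (u a l)) ∧ ∀ x, f x = ∑ a, c a * ∏ l, u a l (x l)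

theorem SP.mul {k : ℕ} {f g : (Fin k → ℂ) → ℂ} (hf : SP k f) (hg : SP k g) :
    SP k (fun x => f x * g x) := by
  obtain ⟨ι, _, c, u, hu, h⟩ := hf
  obtain ⟨ι', _, c', u', hu', h'⟩ := hg
  refine ⟨ι × ι', inferInstance, fun a => c a.1 * c' a.2, fun a l z => u a.1 l z * u' a.2 l z,
    fun a l => (hu a.1 l).mul (hu' a.2 l), fun x => ?_⟩
  show f x * g x = ∑ a : ι × ι', c a.1 * c' a.2 * ∏ l, (u a.1 l (x l) * u' a.2 l (x l))
  rw [h, h', Finset.sum_mul_sum, Fintype.sum_prod_type]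
  refine Finset.sum_congr rfl fun a _ => Finset.sum_congr rfl fun b _ => ?_
  rw [Finset.prod_mul_distrib]
  ring

theorem SP.add {k : ℕ} {f g : (Fin k → ℂ) → ℂ} (hf : SP k f) (hg : SP k g) :
    SP k (fun x => f x + g x) := by
  obtain ⟨ι, _, c, u, hu, h⟩ := hf
  obtain ⟨ι', _, c', u', hu', h'⟩ := hg
  refine ⟨ι ⊕ ι', inferInstance, Sum.elim c c', Sum.elim u u', ?_, fun x => ?_⟩
  · rintro (a | a) l
    · exact hu a l
    · exact hu' a l
  · show f x + g x = _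
    rw [h, h', Fintype.sum_sum_type]
    rfl

theorem SP.const {k : ℕ} (c : ℂ) : SP k (fun _ => c) := by
  refine ⟨Unit, inferInstance, fun _ => c, fun _ _ _ => 1, fun _ _ => contDiff_const, fun x => ?_⟩
  simp

theorem SP.star {k : ℕ} {f : (Fin k → ℂ) → ℂ} (hf : SP k f) : SP k (fun x => conj (f x)) := by
  obtain ⟨ι, _, c, u, hu, h⟩ := hf
  refine ⟨ι, inferInstance, fun a => conj (c a), fun a l z => conj (u a l z),
    fun a l => ?_, fun x => ?_⟩
  · exact Complex.conjCLE.contDiff.comp (hu a l)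
  · show conj (f x) = ∑ a, conj (c a) * ∏ l, conj (u a l (x l))
    rw [h, map_sum]
    refine Finset.sum_congr rfl fun a _ => ?_
    rw [map_mul, map_prod]

theorem SP.coord {k : ℕ} (l : Fin k) : SP k (fun x => x l) := by
  refine ⟨Unit, inferInstance, fun _ => 1, fun _ l' z => if l' = l then z else 1, fun _ l' => ?_,
    fun x => ?_⟩
  · by_cases h : l' = l
    · simp only [h, if_true]
      exact contDiff_id
    · simp only [h, if_false]
      exact contDiff_const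
  · simp

/-- the restrictions to a compact set form a star subalgebra -/
def alg (k : ℕ) (K : Set (Fin k → ℂ)) : StarSubalgebra ℂ C(K, ℂ) where
  carrier := {f | ∃ g, SP k g ∧ ∀ x : K, f x = g x.1}
  mul_mem' := by
    rintro f f' ⟨g, hg, h⟩ ⟨g', hg', h'⟩
    exact ⟨_, hg.mul hg', fun x => by rw [ContinuousMap.mul_apply, h, h']⟩
  add_mem' := by
    rintro f f' ⟨g, hg, h⟩ ⟨g', hg', h'⟩
    exact ⟨_, hg.add hg', fun x => by rw [ContinuousMap.add_apply, h, h']⟩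
  algebraMap_mem' := fun c => ⟨_, SP.const c, fun x => rfl⟩
  star_mem' := by
    rintro f ⟨g, hg, h⟩
    exact ⟨_, hg.star, fun x => by rw [ContinuousMap.star_apply, h]; rfl⟩

theorem alg_sep (k : ℕ) (K : Set (Fin k → ℂ)) : (alg k K).SeparatesPoints := by
  intro x y hxy
  have h1 : x.1 ≠ y.1 := fun h => hxy (Subtype.ext h)
  obtain ⟨l, hl⟩ := Function.ne_iff.1 h1
  have hc : Continuous fun z : K => z.1 l := (continuous_apply l).comp continuous_subtype_val
  exact ⟨_, ⟨(⟨fun z : K => z.1 l, hc⟩ : C(K, ℂ)), ⟨_, SP.coord l, fun z => rfl⟩, rfl⟩, hl⟩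

/-- Stone-Weierstrass -/
theorem approx (k : ℕ) (K : Set (Fin k → ℂ)) (hK : IsCompact K) (χ : (Fin k → ℂ) → ℂ)
    (hχ : Continuous χ) (ε : ℝ) (hε : 0 < ε) :
    ∃ g, SP k g ∧ ∀ x ∈ K, ‖χ x - g x‖ ≤ ε := by
  have : CompactSpace K := isCompact_iff_compactSpace.1 hK
  have h1 := ContinuousMap.starSubalgebra_topologicalClosure_eq_top_of_separatesPoints
    (alg k K) (alg_sep k K)
  let f : C(K, ℂ) := ⟨fun z => χ z.1, hχ.comp continuous_subtype_val⟩
  have h2 : f ∈ (alg k K).topologicalClosure := by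
    rw [h1]
    exact StarSubalgebra.mem_top
  have h3 : f ∈ closure ((alg k K : StarSubalgebra ℂ C(K, ℂ)) : Set C(K, ℂ)) := h2
  obtain ⟨g, ⟨g', hg', hgg⟩, hd⟩ := Metric.mem_closure_iff.1 h3 ε hε
  refine ⟨g', hg', fun x hx => ?_⟩
  have h4 : dist (f ⟨x, hx⟩) (g ⟨x, hx⟩) ≤ dist f g := ContinuousMap.dist_apply_le_dist _
  rw [hgg ⟨x, hx⟩, dist_eq_norm] at h4
  exact h4.trans hd.le

theorem pf_SW : T_SW := by
  intro k χ hχ hs
  obtain ⟨R₀, hR₀0, hR₀⟩ : ∃ R₀ : ℝ, 0 < R₀ ∧ ∀ x, χ x ≠ 0 → ‖x‖ ≤ R₀ := by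
    obtain ⟨r, hr⟩ := hs.isCompact.isBounded.subset_closedBall 0
    refine ⟨max r 1, lt_of_lt_of_le one_pos (le_max_right _ _), fun x hx => ?_⟩
    have h1 := hr (subset_tsupport χ hx)
    rw [mem_closedBall_zero_iff] at h1
    exact h1.trans (le_max_left _ _)
  have hsup : ∀ x, (∃ l, R₀ + 2 ≤ ‖x l‖) → χ x = 0 := by
    rintro x ⟨l, hl⟩
    by_contra h
    have h1 := hR₀ x h
    have h2 := norm_le_pi_norm x l
    linarith
  refine ⟨R₀ + 2, hsup, fun ε hε => ?_⟩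
  obtain ⟨g, ⟨ι, _, c, u, hu, hg⟩, hgε⟩ := approx k (Metric.closedBall 0 (R₀ + 2))
    (isCompact_closedBall _ _) χ hχ ε hε
  let η : ContDiffBump (0 : ℂ) := ⟨R₀ + 1, R₀ + 2, by linarith, by linarith⟩
  have hη1 : ∀ z : ℂ, ‖z‖ ≤ R₀ + 1 → η z = 1 := fun z hz =>
    η.one_of_mem_closedBall (mem_closedBall_zero_iff.2 hz)
  have hη0 : ∀ z : ℂ, R₀ + 2 ≤ ‖z‖ → η z = 0 := fun z hz =>
    η.zero_of_le_dist (by rw [dist_zero_right]; exact hz)
  have hηn : ∀ z : ℂ, ‖((η z : ℝ) : ℂ)‖ ≤ 1 := by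
    intro z
    rw [Complex.norm_real, Real.norm_eq_abs, abs_of_nonneg η.nonneg]
    exact η.le_one
  obtain ⟨e⟩ : Nonempty (ι ≃ Fin (Fintype.card ι)) := ⟨Fintype.equivFin ι⟩
  refine ⟨Fintype.card ι, fun a => c (e.symm a), fun a l z => ((η z : ℝ) : ℂ) * u (e.symm a) l z,
    fun a l => ?_, fun a l z hz => ?_, fun x => ?_⟩
  · exact (Complex.ofRealCLM.contDiff.comp η.contDiff).mul (hu _ l)
  · show ((η z : ℝ) : ℂ) * u (e.symm a) l z = 0
    rw [hη0 z hz, Complex.ofReal_zero, zero_mul]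
  · have h1 : ∑ a, c (e.symm a) * ∏ l, (((η (x l) : ℝ) : ℂ) * u (e.symm a) l (x l)) =
        (∏ l, ((η (x l) : ℝ) : ℂ)) * g x := by
      rw [hg x, Finset.mul_sum, ← e.symm.sum_comp]
      refine Finset.sum_congr rfl fun a _ => ?_
      rw [Finset.prod_mul_distrib]
      ring
    rw [h1]
    have hηp : ‖∏ l, ((η (x l) : ℝ) : ℂ)‖ ≤ 1 := by
      rw [norm_prod]
      exact Finset.prod_le_one (fun l _ => norm_nonneg _) fun l _ => hηn _
    have h2 : χ x = (∏ l, ((η (x l) : ℝ) : ℂ)) * χ x := by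
      by_cases h : χ x = 0
      · rw [h, mul_zero]
      · have h3 : ∏ l, ((η (x l) : ℝ) : ℂ) = 1 := by
          refine Finset.prod_eq_one fun l _ => ?_
          have h4 := (norm_le_pi_norm x l).trans (hR₀ x h)
          rw [hη1 (x l) (by linarith), Complex.ofReal_one]
        rw [h3, one_mul]
    by_cases hx : x ∈ Metric.closedBall (0 : Fin k → ℂ) (R₀ + 2)
    · rw [h2, ← mul_sub, norm_mul]
      calc _ ≤ 1 * ε := mul_le_mul hηp (hgε x hx) (norm_nonneg _) zero_le_one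
        _ = ε := one_mul ε
    · have h5 : ∃ l, R₀ + 2 ≤ ‖x l‖ := by
        by_contra hcon
        push Not at hcon
        apply hx
        rw [mem_closedBall_zero_iff]
        exact (pi_norm_le_iff_of_nonneg (by linarith)).2 fun l => (hcon l).le
      obtain ⟨l, hl⟩ := h5
      have h6 : ∏ l, ((η (x l) : ℝ) : ℂ) = 0 := by
        refine Finset.prod_eq_zero (Finset.mem_univ l) ?_
        rw [hη0 _ hl, Complex.ofReal_zero]
      rw [hsup x ⟨l, hl⟩, h6, zero_mul, sub_zero, norm_zero]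
      exact hε.le

end Pool.Agent.H39.UDA
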